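import Pool.Agent.H.MP_b57530_al.Tree

set_option autoImplicit false

namespace Pool.Agent.H.MP_b57530_al

open Finset

def tot (F : Wd → ℝ) : ℕ → ℕ → Wd → ℝ
  | 0, _, w => F w
  | d + 1, i, w => ∑ r ∈ range (mm i), tot F d (i + 1) (sec i w r)

def nd : ℕ → ℕ → ℝ
  | 0, _ => 1
  | d + 1, i => mm i * nd d (i + 1)

lemma tot_add (F : Wd → ℝ) (d e : ℕ) : ∀ i w, tot F (d + e) i w = tot (tot F e (i + d)) d i w := by
  induction d with
  | zero => intro i w; simp [tot]
  | succ d ih =>
    intro i w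
    rw [show d + 1 + e = (d + e) + 1 by ring]
    simp only [tot, ih]
    rw [show i + 1 + d = i + (d + 1) by ring]

lemma tot_lin (F G H : Wd → ℝ) (x y c : ℝ) (h : ∀ w, F w ≤ x * G w + y * H w + c) (d : ℕ) :
    ∀ i w, tot F d i w ≤ x * tot G d i w + y * tot H d i w + c * nd d i := by
  induction d with
  | zero => intro i w; simpa [tot, nd] using h w
  | succ d ih =>
    intro i w
    simp only [tot, nd]
    refine (sum_le_sum fun (r : ℕ) _ => ih (i + 1) (sec i w r)).trans (le_of_eq ?_)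
    rw [sum_add_distrib, sum_add_distrib, ← mul_sum, ← mul_sum]
    simp; ring

lemma tot_WB (f : V → ℝ) (hf : ∀ b c, f (b + c) ≤ f b + f c) (d : ℕ) :
    ∀ i, ∃ k : ℝ, ∀ w, tot (WB f) d i w ≤ WB f w + k * f 0 := by
  induction d with
  | zero => intro i; exact ⟨0, fun w => by simp [tot]⟩
  | succ d ih =>
    intro i
    obtain ⟨k, hk⟩ := ih (i + 1)
    refine ⟨mm i + mm i * k, fun w => ?_⟩
    simp only [tot]
    refine (sum_le_sum fun (r : ℕ) _ => hk (sec i w r)).trans ?_
    rw [sum_add_distrib]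
    have := sum_WB i f hf w
    simp only [sum_const, card_range, nsmul_eq_mul]
    linarith

lemma tot_massB (d i : ℕ) (w : Wd) : tot (WB mass) d i w ≤ WB mass w := by
  obtain ⟨k, hk⟩ := tot_WB mass (fun b c => (mass_add b c).le) d i
  simpa [mass_zero] using hk w

lemma tot_len (d i : ℕ) : ∃ k : ℝ, ∀ w, tot len d i w ≤ len w + k := by
  obtain ⟨k, hk⟩ := tot_WB (fun _ => 1) (fun b c => by norm_num) d i
  exact ⟨k, fun w => by have := hk w; rw [mul_one] at this; exact this⟩

lemma tot_massA (d i : ℕ) (w : Wd) : tot (WA mass) d i w ≤ WA mass w + WB mass w := by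
  rcases d with _ | d
  · simp [tot, WB_mass_nonneg]
  · rw [tot_add]
    have h1 := tot_lin (tot (WA mass) 1 (i + d)) (WB mass) (WB mass) 1 0 0 (fun u => by
      simpa [tot] using sum_WA (i + d) u) d i w
    have h2 := tot_massB d i w
    linarith [WA_mass_nonneg w]

lemma WB_le (f g h : V → ℝ) (x y : ℝ) (H : ∀ b, f b ≤ x * g b + y * h b) (w : Wd) :
    WB f w ≤ x * WB g w + y * WB h w := by
  induction w with
  | nil => simp [WB]
  | cons z w ih => obtain ⟨a, b⟩ := z; simp only [WB]; nlinarith [H b]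

lemma WB_sum {ι : Type} (s : Finset ι) (f : ι → V → ℝ) (w : Wd) :
    ∑ k ∈ s, WB (f k) w = WB (fun b => ∑ k ∈ s, f k b) w := by
  induction w with
  | nil => simp [WB]
  | cons z w ih => obtain ⟨a, b⟩ := z; simp only [WB, sum_add_distrib, ih]

def fk (k : ℕ × ℕ) (v : V) : ℝ := if v.1 = k.1 ∧ v.2.1 = k.2 then 1 else 2

lemma one_class (i : ℕ) (k : ℕ × ℕ) : ∀ᶠ e in Filter.atTop, ∃ c : ℝ, ∀ u,
    2 * tot len e i u ≤ WB (fk k) u + c := by
  obtain ⟨j, hj, hk⟩ := exists_kil k.1 k.2 i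
  obtain ⟨d, rfl⟩ := Nat.exists_eq_add_of_le hj
  rw [Filter.eventually_atTop]
  refine ⟨d + 1, fun e he => ?_⟩
  obtain ⟨e', rfl⟩ := Nat.exists_eq_add_of_le he
  obtain ⟨k1, hk1⟩ := tot_len e' (i + (d + 1))
  obtain ⟨k2, hk2⟩ := tot_WB (fk k) (fun b c => by unfold fk; split_ifs <;> norm_num) d i
  have h3 : ∀ v, tot len 1 (i + d) v ≤ (1 / 2) * WB (fk k) v + 0 * WB (fk k) v + mm (i + d) := by
    intro v
    have a1 := sum_kil (i + d) v
    have a2 := sum_WB (i + d) (fun _ => 1) (fun b c => by norm_num) v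
    have a3 := WB_le (fun b => if kil (i + d + 1) b then 0 else 1) (fk k) (fun _ => 1) 1 (-1)
      (fun b => by
        unfold fk
        by_cases hb : b.1 = k.1 ∧ b.2.1 = k.2
        · simp [hb, hk b hb.1 hb.2]
        · simp only [hb, if_false]; split_ifs <;> norm_num) v
    simp only [tot]
    unfold len at a1 ⊢
    linarith
  refine ⟨2 * (k1 * nd (d + 1) i) + 2 * (mm (i + d) * nd d i) + k2 * fk k 0, fun u => ?_⟩
  rw [tot_add]
  have b1 := tot_lin (tot len e' (i + (d + 1))) len len 1 0 k1 (fun w => by simpa using hk1 w)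
    (d + 1) i u
  have b2 := tot_lin _ _ _ _ _ _ h3 d i u
  rw [← tot_add] at b2
  have b3 := hk2 u
  linarith

lemma step (M : ℕ) (hM : 0 < M) (i : ℕ) : ∃ e, ∃ c : ℝ, ∀ u,
    tot len e i u ≤ (1 - 1 / (2 * (M : ℝ) ^ 2)) * len u +
      (1 / (2 * (M : ℝ) ^ 2) * (1 / M)) * WB mass u + c := by
  have h := (Filter.eventually_all_finset (range M ×ˢ range M)).2 (fun k _ => one_class i k)
  obtain ⟨e, he⟩ := h.exists
  choose! c hc using he
  have hM' : (0 : ℝ) < M := by exact_mod_cast hM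
  refine ⟨e, (∑ k ∈ range M ×ˢ range M, c k) / (2 * (M : ℝ) ^ 2), fun u => ?_⟩
  have h1 : ∑ k ∈ range M ×ˢ range M, 2 * tot len e i u ≤
      ∑ k ∈ range M ×ˢ range M, (WB (fk k) u + c k) := sum_le_sum fun k hk => hc k hk u
  rw [sum_add_distrib, WB_sum] at h1
  simp only [sum_const, card_product, card_range, nsmul_eq_mul] at h1
  have h2 := WB_le (fun b => ∑ k ∈ range M ×ˢ range M, fk k b) (fun _ => 1) mass
    (2 * (M : ℝ) ^ 2 - 1) (1 / M) (fun b => by
      have e1 : ∀ k : ℕ × ℕ, fk k b = 2 - (if k = (b.1, b.2.1) then 1 else 0) := by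
        intro k
        unfold fk
        by_cases hk : k = (b.1, b.2.1)
        · subst hk; simp; norm_num
        · rw [if_neg hk, if_neg]
          · simp
          · rintro ⟨h1, h2⟩; apply hk; ext <;> simp [h1, h2]
      simp only [e1, sum_sub_distrib, sum_const, card_product, card_range, nsmul_eq_mul,
        sum_ite_eq', mem_product, mem_range]
      have hm := mass_nonneg b
      split_ifs with hb
      · have : 0 ≤ 1 / (M : ℝ) * mass b := by positivity
        push_cast; nlinarith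
      · have : (M : ℝ) ≤ mass b := by
          unfold mass
          have : M ≤ b.1 + b.2.1 + b.2.2 := by omega
          exact_mod_cast this
        have h3 : 1 ≤ 1 / (M : ℝ) * mass b := by
          rw [one_div, ← div_eq_inv_mul, le_div_iff₀ hM']; linarith
        push_cast; nlinarith) u
  have hpos : (0 : ℝ) < 2 * (M : ℝ) ^ 2 := by positivity
  have h4 : 2 * (M : ℝ) ^ 2 * tot len e i u ≤ (2 * (M : ℝ) ^ 2 - 1) * len u +
      (1 / M) * WB mass u + ∑ k ∈ range M ×ˢ range M, c k := by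
    unfold len at h1 h2 ⊢
    push_cast at h1
    nlinarith
  have h5 : (1 - 1 / (2 * (M : ℝ) ^ 2)) * len u +
      (1 / (2 * (M : ℝ) ^ 2) * (1 / M)) * WB mass u +
      (∑ k ∈ range M ×ˢ range M, c k) / (2 * (M : ℝ) ^ 2) =
      ((2 * (M : ℝ) ^ 2 - 1) * len u +
      (1 / M) * WB mass u + ∑ k ∈ range M ×ˢ range M, c k) / (2 * (M : ℝ) ^ 2) := by
    field_simp
  rw [h5, le_div_iff₀ hpos]
  linarith

lemma contr (M : ℕ) (hM : 0 < M) : ∃ d, ∃ c : ℝ, ∀ w,
    tot len d 0 w ≤ (1 / M) * len w + (1 / M) * WB mass w + c := by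
  have hM' : (1 : ℝ) ≤ M := by exact_mod_cast hM
  set η : ℝ := 1 / (2 * (M : ℝ) ^ 2) with hη
  have hη0 : 0 < η := by positivity
  have hη1 : η ≤ 1 := by
    rw [hη, div_le_one (by positivity)]; nlinarith
  have H : ∀ k : ℕ, ∃ d, ∃ c : ℝ, ∀ w,
      tot len d 0 w ≤ (1 - η) ^ k * len w + (1 / M) * WB mass w + c := by
    intro k
    induction k with
    | zero =>
      refine ⟨0, 0, fun w => ?_⟩
      have := WB_mass_nonneg w
      simp only [tot, pow_zero, one_mul, add_zero, le_add_iff_nonneg_right]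
      positivity
    | succ k ih =>
      obtain ⟨d, c, hd⟩ := ih
      obtain ⟨e, c', he⟩ := step M hM (0 + d)
      refine ⟨d + e, (1 - η) * c + c' * nd d 0, fun w => ?_⟩
      rw [tot_add]
      have b1 := tot_lin _ _ _ _ _ _ he d 0 w
      have b2 := tot_massB d 0 w
      have b3 := mul_le_mul_of_nonneg_left (hd w) (sub_nonneg.2 hη1)
      have b4 := mul_le_mul_of_nonneg_left b2 (show 0 ≤ η * (1 / (M : ℝ)) by positivity)
      rw [pow_succ]
      nlinarith
  obtain ⟨k, hk⟩ := exists_pow_lt_of_lt_one (show (0 : ℝ) < 1 / M by positivity)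
    (show 1 - η < 1 by linarith)
  obtain ⟨d, c, hd⟩ := H k
  refine ⟨d, c, fun w => (hd w).trans ?_⟩
  have : 0 ≤ len w := by
    have := WB_le (fun _ => 0) (fun _ => 1) (fun _ => 1) 1 0 (fun b => by norm_num) w
    have h0 : WB (fun _ => 0) w = 0 := by
      clear this
      induction w with
      | nil => simp [WB]
      | cons z w ih => obtain ⟨a, b⟩ := z; simp [WB, ih]
    unfold len; linarith
  nlinarith

/-! Codes. -/

def enc0 : Wd → List ℕ
  | [] => [0]
  | (a, b) :: w => 1 :: a.1 :: a.2.1 :: a.2.2 :: b.1 :: b.2.1 :: b.2.2 :: enc0 w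

def enc : ℕ → ℕ → Wd → List ℕ
  | 0, _, w => enc0 w
  | d + 1, i, w => (sh i w % mm i).toNat ::
      (List.range (mm i)).flatMap (fun r : ℕ => enc d (i + 1) (sec i w r))

lemma enc0_inj (w : Wd) : ∀ (w' : Wd) (l l' : List ℕ), enc0 w ++ l = enc0 w' ++ l' →
    w = w' ∧ l = l' := by
  induction w with
  | nil =>
    intro w' l l' h
    rcases w' with _ | ⟨⟨a', b'⟩, u⟩
    · simpa [enc0] using h
    · simp [enc0] at h
  | cons z w ih =>
    obtain ⟨a, b⟩ := z
    intro w' l l' h
    rcases w' with _ | ⟨⟨a', b'⟩, u⟩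
    · simp [enc0] at h
    · simp only [enc0, List.cons_append, List.cons.injEq, true_and] at h
      obtain ⟨h1, h2, h3, h4, h5, h6, h7⟩ := h
      obtain ⟨h8, h9⟩ := ih u l l' h7
      refine ⟨?_, h9⟩
      rw [h8]
      congr 2 <;> ext <;> assumption

lemma flat_inj (f g : ℕ → List ℕ) (P : ℕ → Prop)
    (h : ∀ r l l', f r ++ l = g r ++ l' → P r ∧ l = l') (L : List ℕ) (l l' : List ℕ)
    (H : L.flatMap f ++ l = L.flatMap g ++ l') : (∀ r ∈ L, P r) ∧ l = l' := by
  induction L with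
  | nil => simpa using H
  | cons r L ih =>
    simp only [List.flatMap_cons, List.append_assoc] at H
    obtain ⟨h1, h2⟩ := h r _ _ H
    obtain ⟨h3, h4⟩ := ih h2
    refine ⟨fun s hs => ?_, h4⟩
    rcases List.mem_cons.1 hs with rfl | hs
    · exact h1
    · exact h3 s hs

def zz (w : Wd) : ℝ := WB (fun b => (b.2.2 : ℝ)) w

lemma WB_neg (f : V → ℝ) (w : Wd) : WB (fun b => - f b) w = - WB f w := by
  induction w with
  | nil => simp [WB]
  | cons z w ih => obtain ⟨a, b⟩ := z; simp only [WB, ih]; ring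

lemma sum_zz (i : ℕ) (w : Wd) : ∑ r ∈ range (mm i), zz (sec i w r) = zz w := by
  have h1 := sum_WB i (fun b => (b.2.2 : ℝ)) (fun b c => by simp) w
  have h2 := sum_WB i (fun b => - (b.2.2 : ℝ)) (fun b c => by simp) w
  simp only [WB_neg, sum_neg_distrib] at h2
  simp at h1 h2
  unfold zz
  linarith

lemma ev_base (i : ℕ) (w : Wd) (l : ℤ) : ∃ k : ℤ, (k : ℝ) = zz w ∧ ev i w (.base l) = .base (l + k) := by
  induction w with
  | nil => exact ⟨0, by simp [zz, WB], by simp [ev]⟩
  | cons z w ih =>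
    obtain ⟨a, b⟩ := z
    obtain ⟨k, h1, h2⟩ := ih
    refine ⟨k + b.2.2, ?_, ?_⟩
    · unfold zz at h1 ⊢; simp only [WB]; push_cast; linarith
    · simp only [ev, h2, actB, actA, io]; congr 1; ring

lemma enc_inj (d : ℕ) : ∀ (i : ℕ) (w w' : Wd) (l l' : List ℕ), enc d i w ++ l = enc d i w' ++ l' →
    (ev i w = ev i w' ∧ zz w = zz w') ∧ l = l' := by
  induction d with
  | zero =>
    intro i w w' l l' h
    obtain ⟨h1, h2⟩ := enc0_inj w w' l l' h
    subst h1; exact ⟨⟨rfl, rfl⟩, h2⟩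
  | succ d ih =>
    intro i w w' l l' h
    simp only [enc, List.cons_append, List.cons.injEq] at h
    obtain ⟨h1, h2⟩ := h
    obtain ⟨h3, h4⟩ := flat_inj _ _ (fun r : ℕ => ev (i + 1) (sec i w r) = ev (i + 1) (sec i w' r) ∧
      zz (sec i w r) = zz (sec i w' r)) (fun r l l' h => ih (i + 1) _ _ l l' h) _ _ _ h2
    have hz : zz w = zz w' := by
      rw [← sum_zz i w, ← sum_zz i w']
      exact sum_congr rfl fun r hr => (h3 r (by simpa using hr)).2
    refine ⟨⟨?_, hz⟩, h4⟩
    have hm : (0 : ℤ) < mm i := by have := two_le_mm i; omega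
    have hs : sh i w % mm i = sh i w' % mm i := by
      have a1 := Int.emod_nonneg (sh i w) hm.ne'
      have a2 := Int.emod_nonneg (sh i w') hm.ne'
      omega
    funext y
    cases y with
    | base l =>
      obtain ⟨k, a1, a2⟩ := ev_base i w l
      obtain ⟨k', a3, a4⟩ := ev_base i w' l
      have : k = k' := by
        have : (k : ℝ) = k' := by rw [a1, a3, hz]
        exact_mod_cast this
      rw [a2, a4, this]
    | cons r y =>
      rw [ev_cons, ev_cons, rot_congr _ _ _ _ hs]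
      by_cases hr : 0 ≤ r ∧ r < mm i
      · obtain ⟨r', rfl⟩ := Int.eq_ofNat_of_zero_le hr.1
        rw [(h3 r' (by simpa using hr.2)).1]
      · rw [sec_out i w r hr, sec_out i w' r hr]

lemma enc0_bd (w : Wd) : ((enc0 w).length : ℝ) = 7 * len w + 1 ∧
    ((enc0 w).sum : ℝ) = len w + WA mass w + WB mass w := by
  induction w with
  | nil => simp [enc0, len, WB, WA]
  | cons z w ih =>
    obtain ⟨a, b⟩ := z
    unfold len at ih ⊢
    simp only [enc0, List.length_cons, List.sum_cons, WB, WA, mass, Nat.cast_add, Nat.cast_one]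
    constructor <;> linarith [ih.1, ih.2]

lemma flat_len (f : ℕ → List ℕ) (n : ℕ) :
    (((List.range n).flatMap f).length : ℝ) = ∑ r ∈ range n, ((f r).length : ℝ) ∧
    (((List.range n).flatMap f).sum : ℝ) = ∑ r ∈ range n, ((f r).sum : ℝ) := by
  induction n with
  | zero => simp
  | succ n ih =>
    rw [List.range_succ, List.flatMap_append, sum_range_succ, sum_range_succ, ← ih.1, ← ih.2]
    simp

lemma enc_bd (d : ℕ) : ∀ i, ∃ c : ℝ, ∀ w, ((enc d i w).length : ℝ) ≤ 7 * tot len d i w + c ∧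
    ((enc d i w).sum : ℝ) ≤ tot len d i w + tot (WA mass) d i w + tot (WB mass) d i w + c := by
  induction d with
  | zero =>
    intro i
    refine ⟨1, fun w => ?_⟩
    simp only [enc, tot]
    constructor <;> linarith [(enc0_bd w).1, (enc0_bd w).2]
  | succ d ih =>
    intro i
    obtain ⟨c, hc⟩ := ih (i + 1)
    refine ⟨mm i * c + mm i, fun w => ?_⟩
    have h2 := two_le_mm i
    have h2' : (2 : ℝ) ≤ mm i := by exact_mod_cast h2
    have hm : (0 : ℤ) < mm i := by omega
    have hs : (((sh i w % mm i).toNat : ℕ) : ℝ) ≤ mm i := by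
      have a2 := Int.emod_lt_of_pos (sh i w) hm
      have : (sh i w % mm i).toNat ≤ mm i := by omega
      exact_mod_cast this
    simp only [enc, tot, List.length_cons, List.sum_cons, Nat.cast_add, Nat.cast_one]
    rw [(flat_len _ _).1, (flat_len _ _).2]
    have a1 := sum_le_sum (s := range (mm i)) fun (r : ℕ) _ => (hc (sec i w r)).1
    have a2 := sum_le_sum (s := range (mm i)) fun (r : ℕ) _ => (hc (sec i w r)).2
    simp only [sum_add_distrib, ← mul_sum, sum_const, card_range, nsmul_eq_mul] at a1 a2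
    constructor <;> linarith

/-- main estimate: codes are short. -/
lemma code_bd (M : ℕ) (hM : 0 < M) : ∃ d, ∃ c : ℝ, ∀ (n : ℕ) (w : Wd), len w ≤ n →
    WA mass w + WB mass w ≤ n →
    ((enc d 0 w).length : ℝ) ≤ 14 * n / M + c ∧ ((enc d 0 w).sum : ℝ) ≤ 3 * n + c := by
  obtain ⟨d, c, hd⟩ := contr M hM
  obtain ⟨c', hc⟩ := enc_bd d 0
  obtain ⟨k, hk⟩ := tot_len d 0
  refine ⟨d, |c'| + 7 * |c| + |k|, fun n w h1 h2 => ?_⟩
  have a1 := hd w
  have a2 := hc w
  have a3 := hk w
  have a4 := tot_massA d 0 w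
  have a5 := tot_massB d 0 w
  have a6 := WA_mass_nonneg w
  have hM' : (0 : ℝ) < 1 / M := by positivity
  have a7 := mul_le_mul_of_nonneg_left h1 hM'.le
  have a8 := mul_le_mul_of_nonneg_left (show WB mass w ≤ n by linarith) hM'.le
  have e : 14 * (n : ℝ) / M = 14 * (1 / M * n) := by ring
  constructor
  · rw [e]; linarith [le_abs_self c, le_abs_self c', abs_nonneg k, a2.1]
  · linarith [abs_nonneg c, le_abs_self c', le_abs_self k, a2.2]

end Pool.Agent.H.MP_b57530_al
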