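import Mathlib

set_option autoImplicit false

namespace Pool.Agent.H.MP_b57530_al

open Finset

/-! Counting lists of naturals. -/

def LL : ℕ → ℕ → Finset (List ℕ)
  | 0, _ => {[]}
  | K + 1, s => insert [] ((range (s + 1)).biUnion fun x => (LL K (s - x)).image (fun l => x :: l))

lemma mem_LL (l : List ℕ) : ∀ K s, l.length ≤ K → l.sum ≤ s → l ∈ LL K s := by
  induction l with
  | nil => intro K s _ _; cases K <;> simp [LL]
  | cons x l ih =>
    intro K s h1 h2
    rcases K with _ | K
    · simp at h1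
    · simp only [List.length_cons, List.sum_cons] at h1 h2
      simp only [LL, mem_insert, mem_biUnion, mem_range, mem_image]
      exact Or.inr ⟨x, by omega, l, ih K _ (by omega) (by omega), rfl⟩

lemma card_LL (T : ℝ) (hT : 1 < T) : ∃ y : ℝ, 1 ≤ y ∧ ∀ K s, ((LL K s).card : ℝ) ≤ T ^ s * y ^ K := by
  have ht0 : 0 ≤ T⁻¹ := by positivity
  have ht1 : T⁻¹ < 1 := inv_lt_one_of_one_lt₀ hT
  have hz : 0 < (1 - T⁻¹)⁻¹ := by apply inv_pos.2; linarith
  refine ⟨1 + (1 - T⁻¹)⁻¹, by linarith, fun K => ?_⟩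
  induction K with
  | zero => intro s; simpa [LL] using one_le_pow₀ hT.le
  | succ K ih =>
    intro s
    set y := 1 + (1 - T⁻¹)⁻¹ with hy
    have hy1 : 1 ≤ y := by linarith
    have h1 : ((LL (K + 1) s).card : ℝ) ≤ 1 + ∑ x ∈ range (s + 1), ((LL K (s - x)).card : ℝ) := by
      have : (LL (K + 1) s).card ≤ 1 + ∑ x ∈ range (s + 1), (LL K (s - x)).card := by
        simp only [LL]
        refine (card_insert_le _ _).trans ?_
        rw [add_comm]
        exact Nat.add_le_add_left (card_biUnion_le.trans (sum_le_sum fun x _ => card_image_le)) _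
      exact_mod_cast this
    have h2 : ∑ x ∈ range (s + 1), ((LL K (s - x)).card : ℝ) ≤
        ∑ x ∈ range (s + 1), (T ^ s * y ^ K) * T⁻¹ ^ x := by
      refine sum_le_sum fun x hx => (ih _).trans (le_of_eq ?_)
      have hx' : x ≤ s := by simpa [Nat.lt_succ_iff] using hx
      rw [pow_sub₀ _ (by positivity) hx', inv_pow]; ring
    rw [← mul_sum] at h2
    have h3 : ∑ x ∈ range (s + 1), T⁻¹ ^ x ≤ (1 - T⁻¹)⁻¹ := by
      rw [← tsum_geometric_of_lt_one ht0 ht1]
      exact (summable_geometric_of_lt_one ht0 ht1).sum_le_tsum _ (fun _ _ => by positivity)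
    have h4 : 1 ≤ T ^ s * y ^ K := one_le_mul_of_one_le_of_one_le (one_le_pow₀ hT.le) (one_le_pow₀ hy1)
    have h5 := mul_le_mul_of_nonneg_left h3 (show 0 ≤ T ^ s * y ^ K by linarith)
    calc ((LL (K + 1) s).card : ℝ) ≤ T ^ s * y ^ K + T ^ s * y ^ K * (1 - T⁻¹)⁻¹ := by linarith
      _ = T ^ s * y ^ (K + 1) := by rw [pow_succ, hy]; ring

/-! Balls. -/

variable {G : Type} [Group G]

lemma ball_finite (P : G → Prop) (hP : {x | P x}.Finite) (n : ℕ) :
    {g : G | ∃ l : List G, (∀ x ∈ l, P x) ∧ l.length ≤ n ∧ l.prod = g}.Finite := by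
  haveI : Finite {x // P x} := hP
  refine ((List.finite_length_le {x // P x} n).image
    (fun l => (l.map Subtype.val).prod)).subset ?_
  rintro g ⟨l, h1, h2, rfl⟩
  refine ⟨l.pmap Subtype.mk h1, by simpa using h2, ?_⟩
  simp [List.map_pmap]

lemma two_pow_le (P : G → Prop) (hP : {x | P x}.Finite) (n k : ℕ) (F : List Bool → G)
    (hF : ∀ l l', l.length = l'.length → F l = F l' → l = l')
    (hb : ∀ e : List Bool, e.length = k → ∃ l : List G, (∀ x ∈ l, P x) ∧ l.length ≤ n ∧ l.prod = F e) :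
    2 ^ k ≤ {g : G | ∃ l : List G, (∀ x ∈ l, P x) ∧ l.length ≤ n ∧ l.prod = g}.ncard := by
  have h := Set.ncard_le_ncard_of_injOn (s := (Set.univ : Set (Fin k → Bool)))
    (t := {g : G | ∃ l : List G, (∀ x ∈ l, P x) ∧ l.length ≤ n ∧ l.prod = g})
    (fun e => F (List.ofFn e)) (fun e _ => hb _ (by simp))
    (fun e _ e' _ h => List.ofFn_injective (hF _ _ (by simp) h)) (ball_finite P hP n)
  simpa [Set.ncard_univ] using h

lemma semi_list (A : Set G) (s : G) (hs : s ∈ Subsemigroup.closure A) :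
    ∃ l : List G, (∀ x ∈ l, x ∈ A) ∧ l.prod = s := by
  induction hs using Subsemigroup.closure_induction with
  | mem x hx => exact ⟨[x], by simpa using hx, by simp⟩
  | mul x y _ _ hx hy =>
    obtain ⟨l, h1, h2⟩ := hx
    obtain ⟨l', h3, h4⟩ := hy
    refine ⟨l ++ l', fun x hx => ?_, by simp [h2, h4]⟩
    rcases List.mem_append.1 hx with h | h
    · exact h1 x h
    · exact h3 x h

def PP (s t : G) : List Bool → G
  | [] => 1
  | b :: l => PP s t l * (if b then s else t)

lemma ore (A : Finset G)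
    (hA : ∀ c : ℝ, 1 < c → ∃ N : ℕ, ∀ n ≥ N,
        (({g : G | ∃ l : List G, (∀ x ∈ l, x ∈ A) ∧ l.length ≤ n ∧ l.prod = g}.ncard : ℝ) ≤ c ^ n))
    (s t : G) (hs : s ∈ Subsemigroup.closure (A : Set G)) (ht : t ∈ Subsemigroup.closure (A : Set G)) :
    ∃ s' ∈ Subsemigroup.closure (A : Set G), ∃ t' ∈ Subsemigroup.closure (A : Set G),
      s' * s = t' * t := by
  by_contra hcon
  push Not at hcon
  have hS : ∀ l, s * PP s t l ∈ Subsemigroup.closure (A : Set G) := by
    intro l
    induction l with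
    | nil => simpa [PP] using hs
    | cons b l ih =>
      simp only [PP, ← mul_assoc]
      refine Subsemigroup.mul_mem _ ih ?_
      split_ifs <;> assumption
  have hinj : ∀ l l' : List Bool, l.length = l'.length → PP s t l = PP s t l' → l = l' := by
    intro l
    induction l with
    | nil => intro l' h _; exact (List.length_eq_zero_iff.1 h.symm).symm
    | cons b l ih =>
      intro l' h h2
      rcases l' with _ | ⟨b', l'⟩
      · simp at h
      · simp only [PP] at h2
        have h3 : l.length = l'.length := by simpa using h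
        cases b <;> cases b'
        · rw [ih l' h3 (mul_right_cancel h2)]
        · exfalso
          refine hcon _ (hS l') _ (hS l) ?_
          simp at h2
          rw [mul_assoc, mul_assoc, h2]
        · exfalso
          refine hcon _ (hS l) _ (hS l') ?_
          simp at h2
          rw [mul_assoc, mul_assoc, h2]
        · rw [ih l' h3 (mul_right_cancel h2)]
  obtain ⟨ls, a1, a2⟩ := semi_list _ s hs
  obtain ⟨lt, a3, a4⟩ := semi_list _ t ht
  set k := ls.length + lt.length + 1 with hk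
  have hb : ∀ e : List Bool, ∃ l : List G, (∀ x ∈ l, x ∈ A) ∧ l.length ≤ k * e.length ∧
      l.prod = PP s t e := by
    intro e
    induction e with
    | nil => exact ⟨[], by simp, by simp, by simp [PP]⟩
    | cons b e ih =>
      obtain ⟨l, h1, h2, h3⟩ := ih
      refine ⟨l ++ (if b then ls else lt), fun x hx => ?_, ?_, ?_⟩
      · rcases List.mem_append.1 hx with h | h
        · exact h1 x h
        · split_ifs at h
          · exact a1 x h
          · exact a3 x h
      · rw [List.length_append, List.length_cons, mul_add]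
        split_ifs <;> omega
      · rw [List.prod_append, h3, PP]
        split_ifs <;> simp [a2, a4]
  have hk0 : (0 : ℝ) < k := by positivity
  set c : ℝ := (3 / 2 : ℝ) ^ ((k : ℝ)⁻¹) with hc
  have hc1 : 1 < c := Real.one_lt_rpow (by norm_num) (by positivity)
  have hck : c ^ k = 3 / 2 := Real.rpow_inv_natCast_pow (by norm_num) (by omega)
  obtain ⟨N, hN⟩ := hA c hc1
  have h1 := hN (k * (N + 1)) (by nlinarith)
  have h2 := two_pow_le (fun x => x ∈ A) A.finite_toSet (k * (N + 1)) (N + 1) (PP s t) hinj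
    (fun e he => by rw [← he]; exact hb e)
  have h3 : (2 : ℝ) ^ (N + 1) ≤ (3 / 2) ^ (N + 1) := by
    rw [pow_mul, hck] at h1
    refine le_trans ?_ h1
    exact_mod_cast h2
  exact absurd h3 (not_le.2 (pow_lt_pow_left₀ (by norm_num) (by norm_num) (by omega)))

lemma quot (A : Finset G) (a : G) (ha : a ∈ A) (hgen : Subgroup.closure (A : Set G) = ⊤)
    (hA : ∀ c : ℝ, 1 < c → ∃ N : ℕ, ∀ n ≥ N,
        (({g : G | ∃ l : List G, (∀ x ∈ l, x ∈ A) ∧ l.length ≤ n ∧ l.prod = g}.ncard : ℝ) ≤ c ^ n))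
    (g : G) : ∃ s ∈ Subsemigroup.closure (A : Set G),
          ∃ t ∈ Subsemigroup.closure (A : Set G), g = s⁻¹ * t := by
  have hg : g ∈ Subgroup.closure (A : Set G) := by rw [hgen]; trivial
  have ha' : a ∈ Subsemigroup.closure (A : Set G) := Subsemigroup.subset_closure ha
  induction hg using Subgroup.closure_induction with
  | mem x hx =>
    exact ⟨a, ha', a * x, Subsemigroup.mul_mem _ ha' (Subsemigroup.subset_closure hx), by simp⟩
  | one => exact ⟨a, ha', a, ha', by simp⟩
  | mul x y _ _ hx hy =>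
    obtain ⟨s, h1, t, h2, rfl⟩ := hx
    obtain ⟨u, h3, v, h4, rfl⟩ := hy
    obtain ⟨s', h5, t', h6, h7⟩ := ore A hA t u h2 h3
    refine ⟨s' * s, Subsemigroup.mul_mem _ h5 h1, t' * v, Subsemigroup.mul_mem _ h6 h4, ?_⟩
    have : t = s'⁻¹ * (t' * u) := by rw [← h7]; simp
    rw [this]; group
  | inv x _ hx =>
    obtain ⟨s, h1, t, h2, rfl⟩ := hx
    exact ⟨t, h2, s, h1, by simp⟩

lemma expo (f : ℕ → ℕ) (h : ∀ k n, 5 * k ≤ n → 2 ^ k ≤ f n) (h1 : ∀ n, 1 ≤ n → 2 ≤ f n) :
    ∃ c : ℝ, 1 < c ∧ ∀ n : ℕ, c ^ n ≤ f n := by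
  set c : ℝ := (2 : ℝ) ^ (((10 : ℕ) : ℝ)⁻¹) with hc
  have hc1 : 1 < c := Real.one_lt_rpow (by norm_num) (by positivity)
  have hck : c ^ 10 = 2 := Real.rpow_inv_natCast_pow (by norm_num) (by omega)
  refine ⟨c, hc1, fun n => ?_⟩
  by_cases hn : n < 5
  · rcases Nat.eq_zero_or_pos n with rfl | hn0
    · have := h 0 0 le_rfl
      simpa using this
    · have : c ^ n ≤ c ^ 10 := pow_le_pow_right₀ hc1.le (by omega)
      rw [hck] at this
      exact this.trans (by exact_mod_cast h1 n hn0)
  · have a1 := h (n / 5) n (by omega)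
    have : c ^ n ≤ c ^ (10 * (n / 5)) := pow_le_pow_right₀ hc1.le (by omega)
    rw [pow_mul, hck] at this
    exact this.trans (by exact_mod_cast a1)

end Pool.Agent.H.MP_b57530_al
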