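import Pool.Agent.H.MP_b57530_al.Contr
import Pool.Agent.H.MP_b57530_al.Gen

set_option autoImplicit false

namespace Pool.Agent.H.MP_b57530_al

open Finset

def pA (m k : ℤ) : Equiv.Perm Y :=
  ⟨actA m k, actA m (-k), fun y => by simp [actA_add, actA_zero],
    fun y => by simp [actA_add, actA_zero]⟩

def pB (i : ℕ) (b : U) : Equiv.Perm Y :=
  ⟨actB i b, actB i (-b), fun y => by simp [actB_add, actB_zero],
    fun y => by simp [actB_add, actB_zero]⟩

def syl (x : V × V) : Equiv.Perm Y := pA (mm 0) (om 0 (io x.1)) * pB 0 (io x.2)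

def gen : Fin 5 → V × V :=
  ![((1, 0, 0), 0), ((0, 1, 0), 0), (0, (1, 0, 0)), (0, (0, 1, 0)), (0, (0, 0, 1))]

def HH : Subgroup (Equiv.Perm Y) := Subgroup.closure (Set.range fun j => syl (gen j))

def ag (j : Fin 5) : HH := ⟨syl (gen j), Subgroup.subset_closure ⟨j, rfl⟩⟩

open Classical in
noncomputable def AA : Finset HH := univ.image ag

lemma mem_AA (x : HH) : x ∈ AA ↔ ∃ j, ag j = x := by simp [AA]

lemma closure_AA : Subgroup.closure (AA : Set HH) = ⊤ := by
  have : (AA : Set HH) = Subtype.val ⁻¹' (Set.range fun j => syl (gen j)) := by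
    ext x
    simp only [mem_coe, mem_AA, Set.mem_preimage, Set.mem_range]
    exact ⟨fun ⟨j, h⟩ => ⟨j, congrArg Subtype.val h⟩, fun ⟨j, h⟩ => ⟨j, Subtype.ext h⟩⟩
  rw [this]
  exact Subgroup.closure_closure_coe_preimage

lemma gen_mass (j : Fin 5) : mass (gen j).1 + mass (gen j).2 = 1 := by
  fin_cases j <;> simp [gen, mass]

lemma word_of (l : List HH) (h : ∀ x ∈ l, x ∈ AA) : ∃ w : Wd, len w = l.length ∧
    WA mass w + WB mass w = l.length ∧ ev 0 w = ((l.prod : HH) : Equiv.Perm Y) := by
  induction l with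
  | nil => exact ⟨[], by simp [len, WB], by simp [WA, WB], by funext y; simp [ev]⟩
  | cons x l ih =>
    obtain ⟨w, h1, h2, h3⟩ := ih fun y hy => h y (List.mem_cons_of_mem _ hy)
    obtain ⟨j, rfl⟩ := (mem_AA x).1 (h x List.mem_cons_self)
    have := gen_mass j
    refine ⟨((gen j).1, (gen j).2) :: w, ?_, ?_, ?_⟩
    · unfold len at h1 ⊢; simp only [WB, h1, List.length_cons]; push_cast; ring
    · simp only [WA, WB, List.length_cons]; push_cast; linarith
    · funext y
      simp only [ev, h3, List.prod_cons, Subgroup.coe_mul, Equiv.Perm.mul_apply, ag, syl]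
      rfl

lemma subexp (c : ℝ) (hc : 1 < c) : ∃ N : ℕ, ∀ n ≥ N,
    (({g : HH | ∃ l : List HH, (∀ x ∈ l, x ∈ AA) ∧ l.length ≤ n ∧ l.prod = g}.ncard : ℝ)
      ≤ c ^ n) := by
  set T : ℝ := c ^ (((5 : ℕ) : ℝ)⁻¹) with hT
  have hT1 : 1 < T := Real.one_lt_rpow hc (by positivity)
  have hT5 : T ^ 5 = c := Real.rpow_inv_natCast_pow (by linarith) (by omega)
  obtain ⟨y, hy, hL⟩ := card_LL T hT1
  obtain ⟨M0, hM0⟩ := pow_unbounded_of_one_lt (y ^ 14) hT1
  have hM : y ^ 14 ≤ T ^ (M0 + 1) := hM0.le.trans (pow_le_pow_right₀ hT1.le (by omega))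
  set M := M0 + 1 with hMdef
  have hMpos : 0 < M := by omega
  obtain ⟨d, c0, hd⟩ := code_bd M hMpos
  obtain ⟨C, hC⟩ := exists_nat_ge c0
  obtain ⟨N, hN⟩ := pow_unbounded_of_one_lt (T ^ C * y ^ (14 + C)) hT1
  refine ⟨N, fun n hn => ?_⟩
  have H : ∀ g ∈ {g : HH | ∃ l : List HH, (∀ x ∈ l, x ∈ AA) ∧ l.length ≤ n ∧ l.prod = g},
      ∃ w : Wd, enc d 0 w ∈ LL (14 * (n / M + 1) + C) (3 * n + C) ∧
        ev 0 w = (g : Equiv.Perm Y) := by
    rintro g ⟨l, h1, h2, rfl⟩
    obtain ⟨w, a1, a2, a3⟩ := word_of l h1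
    have h2' : (l.length : ℝ) ≤ n := by exact_mod_cast h2
    obtain ⟨b1, b2⟩ := hd n w (by linarith) (by linarith)
    refine ⟨w, mem_LL _ _ _ ?_ ?_, a3⟩
    · have e1 : (n : ℝ) / M ≤ (n / M : ℕ) + 1 := by
        rw [div_le_iff₀ (by positivity)]
        have : n ≤ (n / M + 1) * M := by
          have := Nat.lt_mul_div_succ n hMpos
          rw [mul_comm]; exact this.le
        exact_mod_cast this
      have : ((enc d 0 w).length : ℝ) ≤ ((14 * (n / M + 1) + C : ℕ) : ℝ) := by
        rw [mul_div_assoc] at b1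
        simp only [Nat.cast_add, Nat.cast_mul, Nat.cast_one, Nat.cast_ofNat]
        linarith
      exact_mod_cast this
    · have : ((enc d 0 w).sum : ℝ) ≤ ((3 * n + C : ℕ) : ℝ) := by
        simp only [Nat.cast_add, Nat.cast_mul, Nat.cast_ofNat]
        linarith
      exact_mod_cast this
  choose! W hW using H
  have h1 := Set.ncard_le_ncard_of_injOn
    (s := {g : HH | ∃ l : List HH, (∀ x ∈ l, x ∈ AA) ∧ l.length ≤ n ∧ l.prod = g})
    (t := (LL (14 * (n / M + 1) + C) (3 * n + C) : Set (List ℕ)))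
    (fun g => enc d 0 (W g)) (fun g hg => (hW g hg).1)
    (fun g hg g' hg' h => by
      have := (enc_inj d 0 (W g) (W g') [] [] (by simpa using h)).1.1
      rw [(hW g hg).2, (hW g' hg').2] at this
      exact Subtype.ext (Equiv.ext fun y => congrFun this y)) (Finset.finite_toSet _)
  rw [Set.ncard_coe_finset] at h1
  have h2 := hL (14 * (n / M + 1) + C) (3 * n + C)
  have h3 : (y ^ 14) ^ (n / M) ≤ T ^ n := by
    refine (pow_le_pow_left₀ (by positivity) hM _).trans ?_
    rw [← pow_mul]
    exact pow_le_pow_right₀ hT1.le (Nat.mul_div_le n M)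
  have h4 : T ^ C * y ^ (14 + C) ≤ T ^ n := hN.le.trans (pow_le_pow_right₀ hT1.le hn)
  have h5 : T ^ (3 * n + C) * y ^ (14 * (n / M + 1) + C) =
      T ^ (3 * n) * ((y ^ 14) ^ (n / M) * (T ^ C * y ^ (14 + C))) := by ring
  have h6 : c ^ n = T ^ (3 * n) * (T ^ n * T ^ n) := by rw [← hT5]; ring
  calc _ ≤ ((LL (14 * (n / M + 1) + C) (3 * n + C)).card : ℝ) := by exact_mod_cast h1
    _ ≤ _ := h2
    _ ≤ c ^ n := by
      rw [h5, h6]
      have hT0 : 0 < T := by linarith
      gcongr

/-! Exponential growth of the group. -/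

def gam : U := (1, -1, 0)

lemma om_gam (j : ℕ) : om j gam = 1 := by simp [om, gam]

def gg (i : ℕ) (y : Y) : Y := actA (mm i) 1 (actB i gam y)

def allz : Y → Prop
  | .base _ => True
  | .cons r y => r = 0 ∧ allz y

def zv : ℕ → Y
  | 0 => .base 0
  | N + 1 => .cons 0 (zv N)

lemma allz_zv (N : ℕ) : allz (zv N) := by
  induction N with
  | zero => trivial
  | succ N ih => exact ⟨rfl, ih⟩

lemma gg_one (i : ℕ) (y : Y) : gg i (.cons 0 y) = .cons 1 (actB (i + 1) gam y) := by
  have := two_le_mm i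
  simp only [gg, actB, if_true, actA, rot]
  rw [if_pos ⟨le_rfl, by omega⟩, zero_add, Int.emod_eq_of_lt (by omega) (by omega)]

lemma gg_iter (i : ℕ) (y : Y) (r : ℕ) (h : r + 2 ≤ mm i) :
    (gg i)^[r + 2] (.cons 0 y) = .cons (((r + 2 : ℕ) : ℤ) % mm i) (gg (i + 1) y) := by
  induction r with
  | zero =>
    rw [Function.iterate_succ_apply', Function.iterate_one, gg_one]
    simp only [gg, actB, one_ne_zero, if_false, if_true, actA, rot, om_gam]
    rw [if_pos ⟨by omega, by omega⟩]; rfl
  | succ r ih =>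
    rw [show r + 1 + 2 = (r + 2) + 1 by ring, Function.iterate_succ_apply', ih (by omega),
      Int.emod_eq_of_lt (by omega) (by omega)]
    simp only [gg, actB]
    rw [if_neg (by omega), if_neg (by omega)]
    simp only [actA, rot]
    rw [if_pos ⟨by omega, by omega⟩]; rfl

lemma gg_full (i : ℕ) (q : ℕ) (y : Y) :
    (gg i)^[mm i * q] (.cons 0 y) = .cons 0 ((gg (i + 1))^[q] y) := by
  have h2 := two_le_mm i
  induction q with
  | zero => simp
  | succ q ih =>
    rw [mul_add, mul_one, add_comm, Function.iterate_add_apply, ih, Function.iterate_succ_apply']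
    obtain ⟨r, hr⟩ := Nat.exists_eq_add_of_le' h2
    have := gg_iter i ((gg (i + 1))^[q] y) r hr.ge
    rw [← hr] at this
    rw [this]; simp

lemma orbit (N : ℕ) : ∀ i j, 0 < j → allz ((gg i)^[j] (zv N)) → N < j := by
  induction N with
  | zero => intro i j h _; exact h
  | succ N ih =>
    intro i j hj h
    have h2 := two_le_mm i
    have e : j = j % mm i + mm i * (j / mm i) := (Nat.mod_add_div j (mm i)).symm
    have hlt : j % mm i < mm i := Nat.mod_lt _ (by omega)
    rw [e, Function.iterate_add_apply, zv, gg_full] at h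
    generalize j % mm i = r at e hlt h
    generalize j / mm i = q at e h
    rcases r with _ | _ | r
    · have hq : 0 < q := by
        rcases q with _ | q
        · omega
        · omega
      have := ih (i + 1) q hq h.2
      nlinarith
    · rw [zero_add, Function.iterate_one, gg_one] at h
      exact absurd h.1 one_ne_zero
    · rw [show r + 1 + 1 = r + 2 by ring, gg_iter i _ r (by omega),
        Int.emod_eq_of_lt (by omega) (by omega)] at h
      have := h.1
      omega

def addL (k : ℤ) : Y → Y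
  | .base l => .base (l + k)
  | .cons r y => .cons r (addL k y)

def lp : Y → ℤ
  | .base l => l
  | .cons _ y => lp y

lemma lp_addL (k : ℤ) (y : Y) : lp (addL k y) = lp y + k := by
  induction y with
  | base l => rfl
  | cons r y ih => simpa [addL, lp] using ih

lemma actA_addL (m j k : ℤ) (y : Y) : actA m j (addL k y) = addL k (actA m j y) := by
  cases y <;> rfl

lemma actB_addL (b : U) (k : ℤ) (y : Y) : ∀ i, actB i b (addL k y) = addL k (actB i b y) := by
  induction y with
  | base l => intro i; simp only [addL, actB]; congr 1; ring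
  | cons r y ih =>
    intro i
    simp only [addL, actB]
    split_ifs
    · simp only [addL, ih]
    · simp only [addL, actA_addL]
    · simp only [addL]

lemma lamp_z (y : Y) : ∀ i, allz y → actB i (0, 0, 1) y = addL 1 y := by
  induction y with
  | base l => intro i _; rfl
  | cons r y ih =>
    intro i h
    simp only [actB, h.1, if_true, addL, ih (i + 1) h.2]

lemma lamp_nz (y : Y) : ∀ i, ¬ allz y → actB i (0, 0, 1) y = y := by
  induction y with
  | base l => intro i h; exact absurd trivial h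
  | cons r y ih =>
    intro i h
    simp only [actB]
    split_ifs with h0 h1
    · rw [ih (i + 1) fun h' => h ⟨h0, h'⟩]
    · simp [om, actA_zero]
    · rfl

def gH : HH := ag 0 * (ag 1)⁻¹ * ag 2 * (ag 3)⁻¹

lemma gH_apply (y : Y) : (gH : Equiv.Perm Y) y = gg 0 y := by
  simp only [gH, Subgroup.coe_mul, Subgroup.coe_inv, Equiv.Perm.mul_apply, ag, syl, mul_inv_rev,
    gen, pA, pB, Equiv.Perm.inv_def]
  have hz : ∀ y, actB 0 (0, 0, 0) y = y := fun y => actB_zero y 0
  simp [actA_zero, actA_add, actB_add, gg, io, om, gam, hz]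

lemma sH_apply (y : Y) : (ag 4 : Equiv.Perm Y) y = actB 0 (0, 0, 1) y := by
  simp only [ag, syl, gen, pA, pB, Equiv.Perm.mul_apply]
  simp [io_zero, om_zero, actA_zero, io, om]

def FF : List Bool → HH
  | [] => 1
  | b :: e => FF e * gH * (if b then ag 4 else 1)

lemma FF_addL (e : List Bool) : ∀ k y, (FF e : Equiv.Perm Y) (addL k y) =
    addL k ((FF e : Equiv.Perm Y) y) := by
  induction e with
  | nil => intro k y; rfl
  | cons b e ih =>
    intro k y
    cases b
    · simp [FF, gH_apply, gg, actB_addL, actA_addL, ih]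
    · simp [FF, gH_apply, gg, sH_apply, actB_addL, actA_addL, ih]

lemma FF_nz (e : List Bool) : ∀ y, (∀ j < e.length, ¬ allz ((gg 0)^[j] y)) →
    (FF e : Equiv.Perm Y) y = (gg 0)^[e.length] y := by
  induction e with
  | nil => intro y _; rfl
  | cons b e ih =>
    intro y h
    have h0 : ¬ allz y := h 0 (by simp)
    have h1 := ih (gg 0 y) fun j hj => h (j + 1) (by simpa using hj)
    cases b
    · simp [FF, gH_apply, h1]
    · simp [FF, gH_apply, sH_apply, lamp_nz y 0 h0, h1]

lemma FF_inj (e : List Bool) : ∀ e' : List Bool, e.length = e'.length → FF e = FF e' → e = e' := by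
  induction e with
  | nil => intro l' h _; exact (List.length_eq_zero_iff.1 h.symm).symm
  | cons b e ih =>
    intro l' h h2
    rcases l' with _ | ⟨b', e'⟩
    · simp at h
    have h3 : e.length = e'.length := by simpa using h
    have key : ∀ (b : Bool) (f : List Bool), f.length = e.length →
        lp ((FF (b :: f) : Equiv.Perm Y) (zv (e.length + 1))) =
          lp ((gg 0)^[e.length + 1] (zv (e.length + 1))) + if b then 1 else 0 := by
      intro b f hf
      have h1 := FF_nz f (gg 0 (zv (e.length + 1))) fun j hj hz => by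
        have := orbit (e.length + 1) 0 (j + 1) (by omega) hz
        omega
      rw [hf] at h1
      cases b
      · simp [FF, gH_apply, h1]
      · have a : gg 0 (addL 1 (zv (e.length + 1))) = addL 1 (gg 0 (zv (e.length + 1))) := by
          simp only [gg, actB_addL, actA_addL]
        simp [FF, gH_apply, sH_apply, lamp_z _ 0 (allz_zv _), a, FF_addL, h1, lp_addL]
    have k1 := key b e rfl
    have k2 := key b' e' h3.symm
    rw [h2, k2] at k1
    have hb : b = b' := by
      cases b <;> cases b' <;> simp at k1 ⊢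
    subst hb
    simp only [FF] at h2
    rw [ih e' h3 (mul_right_cancel (mul_right_cancel h2))]

lemma FF_len (e : List Bool) : ∃ l : List HH, (∀ x ∈ l, x ∈ AA ∨ x⁻¹ ∈ AA) ∧
    l.length ≤ 5 * e.length ∧ l.prod = FF e := by
  have hA : ∀ j, ag j ∈ AA := fun j => (mem_AA _).2 ⟨j, rfl⟩
  induction e with
  | nil => exact ⟨[], by simp, by simp, rfl⟩
  | cons b e ih =>
    obtain ⟨l, h1, h2, h3⟩ := ih
    refine ⟨l ++ ([ag 0, (ag 1)⁻¹, ag 2, (ag 3)⁻¹] ++ if b then [ag 4] else []), ?_, ?_, ?_⟩
    · intro x hx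
      rcases List.mem_append.1 hx with h | h
      · exact h1 x h
      · cases b
        · simp at h
          rcases h with rfl | rfl | rfl | rfl <;> simp [hA]
        · simp at h
          rcases h with rfl | rfl | rfl | rfl | rfl <;> simp [hA]
    · cases b <;> simp <;> omega
    · cases b <;> simp [FF, h3, gH, mul_assoc]

lemma expG : ∃ c : ℝ, 1 < c ∧ ∀ n : ℕ,
    c ^ n ≤ (({g : HH | ∃ l : List HH, (∀ x ∈ l, x ∈ AA ∨ x⁻¹ ∈ AA) ∧ l.length ≤ n ∧
      l.prod = g}.ncard : ℝ)) := by
  have hfin : {x : HH | x ∈ AA ∨ x⁻¹ ∈ AA}.Finite :=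
    (AA.finite_toSet.union AA.finite_toSet.inv).subset fun x hx => hx
  refine expo (fun n => {g : HH | ∃ l : List HH, (∀ x ∈ l, x ∈ AA ∨ x⁻¹ ∈ AA) ∧ l.length ≤ n ∧
      l.prod = g}.ncard) (fun k n hk => ?_) (fun n hn => ?_)
  · refine two_pow_le (fun x => x ∈ AA ∨ x⁻¹ ∈ AA) hfin n k FF FF_inj fun e he => ?_
    obtain ⟨l, h1, h2, h3⟩ := FF_len e
    exact ⟨l, h1, by omega, h3⟩
  · have hne : (1 : HH) ≠ ag 4 := by
      intro h
      have := sH_apply (.base 0)
      rw [← h] at this
      simp [actB] at this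
    rw [← Set.ncard_pair hne]
    refine Set.ncard_le_ncard ?_ (ball_finite (fun x => x ∈ AA ∨ x⁻¹ ∈ AA) hfin n)
    rintro x (rfl | rfl)
    · exact ⟨[], by simp, by simp, rfl⟩
    · exact ⟨[ag 4], by simp [(mem_AA _).2 ⟨4, rfl⟩], by simpa using hn, by simp⟩

end Pool.Agent.H.MP_b57530_al
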