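import Mathlib

set_option autoImplicit false

namespace Pool.Agent.H.MP_b57530_al

open Finset

/-! Parameters of the levels. -/

def pr (j : ℕ) : ℕ × ℕ := Nat.unpair (Nat.unpair j).1
def pp (j : ℕ) : ℕ := if (pr j).1 + (pr j).2 = 0 then 1 else (pr j).1
def qq (j : ℕ) : ℕ := (pr j).2
def mm (j : ℕ) : ℕ := pp j + qq j + 1

lemma two_le_mm (j : ℕ) : 2 ≤ mm j := by
  unfold mm pp qq
  split_ifs with h <;> omega

abbrev U := ℤ × ℤ × ℤ
abbrev V := ℕ × ℕ × ℕ

def om (j : ℕ) (b : U) : ℤ := ((pp j : ℤ) + 1) * b.1 + (pp j : ℤ) * b.2.1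

lemma om_add (j : ℕ) (b c : U) : om j (b + c) = om j b + om j c := by
  simp only [om, Prod.fst_add, Prod.snd_add]; ring

lemma om_zero (j : ℕ) : om j 0 = 0 := by simp [om]

def io (b : V) : U := ((b.1 : ℤ), (b.2.1 : ℤ), (b.2.2 : ℤ))

lemma io_add (b c : V) : io (b + c) = io b + io c := by
  simp [io]

lemma io_zero : io 0 = 0 := by simp [io]

/-- the class is killed on level `j` -/
def kil (j : ℕ) (b : V) : Prop := om j (io b) % (mm j : ℤ) = 0

instance (j : ℕ) (b : V) : Decidable (kil j b) := by unfold kil; infer_instance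

lemma kil_zero (j : ℕ) : kil j 0 := by simp [kil, io_zero, om_zero]

lemma exists_kil (a b i : ℕ) : ∃ j, i ≤ j ∧ ∀ v : V, v.1 = a → v.2.1 = b → kil (j + 1) v := by
  by_cases h : a + b = 0
  · refine ⟨i, le_rfl, fun v h1 h2 => ?_⟩
    have ha : a = 0 := by omega
    have hb : b = 0 := by omega
    simp [kil, om, io, h1, h2, ha, hb]
  · have hle : i + 1 ≤ Nat.pair (Nat.pair a b) (i + 1) := Nat.right_le_pair _ _
    refine ⟨Nat.pair (Nat.pair a b) (i + 1) - 1, by omega, fun v h1 h2 => ?_⟩
    have e : Nat.pair (Nat.pair a b) (i + 1) - 1 + 1 = Nat.pair (Nat.pair a b) (i + 1) := by omega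
    rw [e]
    have hp : pp (Nat.pair (Nat.pair a b) (i + 1)) = a := by simp [pp, pr, h]; omega
    have hq : qq (Nat.pair (Nat.pair a b) (i + 1)) = b := by simp [qq, pr]
    unfold kil om io mm
    rw [hp, hq]
    simp only [h1, h2]
    have : ((a : ℤ) + 1) * a + a * b = ((a + b + 1 : ℕ) : ℤ) * a := by push_cast; ring
    rw [this]; exact Int.mul_emod_right _ _

/-! Rotations. -/

def rot (m k r : ℤ) : ℤ := if 0 ≤ r ∧ r < m then (r + k) % m else r

lemma rot_add (m k l r : ℤ) : rot m k (rot m l r) = rot m (k + l) r := by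
  unfold rot
  by_cases h : 0 ≤ r ∧ r < m
  · have hm : 0 < m := by omega
    have h1 := Int.emod_nonneg (r + l) hm.ne'
    have h2 := Int.emod_lt_of_pos (r + l) hm
    simp only [h, and_self, if_true, h1, h2]
    rw [Int.emod_add_emod]; congr 1; ring
  · simp only [h, if_false]

lemma rot_of_emod (m k r : ℤ) (hk : k % m = 0) : rot m k r = r := by
  unfold rot
  split_ifs with h
  · rw [Int.add_emod, hk, add_zero, Int.emod_emod_of_dvd _ (dvd_refl m), Int.emod_eq_of_lt h.1 h.2]
  · rfl

lemma rot_zero (m r : ℤ) : rot m 0 r = r := rot_of_emod m 0 r (by simp)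

lemma rot_congr (m k l r : ℤ) (h : k % m = l % m) : rot m k r = rot m l r := by
  unfold rot
  split_ifs with h1
  · rw [Int.add_emod, h, ← Int.add_emod]
  · rfl

lemma sum_rot (m : ℕ) (k c : ℤ) (h0 : 0 ≤ c) (h1 : c < m) (x : ℝ) :
    ∑ r ∈ range m, (if rot m k (r : ℤ) = c then x else 0) = x := by
  have hm : (0 : ℤ) < m := by omega
  have a1 := Int.emod_nonneg (c + -k) hm.ne'
  have a2 := Int.emod_lt_of_pos (c + -k) hm
  have hr : rot m (-k) c = (c + -k) % m := by simp only [rot, h0, h1, and_self, if_true]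
  rw [Finset.sum_eq_single ((c + -k) % m).toNat]
  · rw [Int.toNat_of_nonneg a1, ← hr, rot_add]
    simp [rot_zero]
  · intro r _ hne
    rw [if_neg]
    intro h
    apply hne
    have : rot m (-k) (rot m k r) = r := by rw [rot_add]; simp [rot_zero]
    rw [h, hr] at this
    rw [this]; simp
  · intro h
    exfalso; apply h
    rw [mem_range]; omega

/-! The space and the actions. -/

inductive Y : Type
  | base (l : ℤ) : Y
  | cons (r : ℤ) (y : Y) : Y

def actA (m k : ℤ) : Y → Y
  | .base l => .base l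
  | .cons r y => .cons (rot m k r) y

def actB (i : ℕ) (b : U) : Y → Y
  | .base l => .base (l + b.2.2)
  | .cons r y => if r = 0 then .cons r (actB (i + 1) b y)
      else if r = 1 then .cons r (actA (mm (i + 1)) (om (i + 1) b) y) else .cons r y

lemma actA_add (m k l : ℤ) (y : Y) : actA m k (actA m l y) = actA m (k + l) y := by
  cases y <;> simp [actA, rot_add]

lemma actA_of_emod (m k : ℤ) (hk : k % m = 0) (y : Y) : actA m k y = y := by
  cases y <;> simp [actA, rot_of_emod m k _ hk]

lemma actA_zero (m : ℤ) (y : Y) : actA m 0 y = y := actA_of_emod m 0 (by simp) y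

lemma actB_add (b c : U) (y : Y) : ∀ i, actB i b (actB i c y) = actB i (b + c) y := by
  induction y with
  | base l => intro i; simp only [actB, Prod.snd_add]; congr 1; ring
  | cons r y ih =>
    intro i
    by_cases h0 : r = 0
    · simp [actB, h0, ih]
    · by_cases h1 : r = 1
      · simp [actB, h1, actA_add, om_add]
      · simp [actB, h0, h1]

lemma actB_zero (y : Y) : ∀ i, actB i 0 y = y := by
  induction y with
  | base l => intro i; simp [actB]
  | cons r y ih =>
    intro i
    simp only [actB, ih, om_zero, actA_zero]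
    split_ifs <;> rfl

/-! Words, sections. -/

abbrev Wd := List (V × V)

def ev (i : ℕ) : Wd → Y → Y
  | [], y => y
  | (a, b) :: w, y => actA (mm i) (om i (io a)) (actB i (io b) (ev i w y))

def sh (i : ℕ) : Wd → ℤ
  | [] => 0
  | (a, _) :: w => om i (io a) + sh i w

def consA (b : V) : Wd → Wd
  | [] => [(b, 0)]
  | (a', b') :: u => (b + a', b') :: u

def consB (j : ℕ) (b : V) : Wd → Wd
  | [] => [(0, b)]
  | (a', b') :: u => if kil j a' then (0, b + b') :: u else (0, b) :: (a', b') :: u

def sec (i : ℕ) : Wd → ℤ → Wd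
  | [], _ => [(0, 0)]
  | (_, b) :: w, r => if rot (mm i) (sh i w) r = 0 then consB (i + 1) b (sec i w r)
      else if rot (mm i) (sh i w) r = 1 then consA b (sec i w r) else sec i w r

lemma ev_consA (j : ℕ) (b : V) (u : Wd) (y : Y) :
    ev j (consA b u) y = actA (mm j) (om j (io b)) (ev j u y) := by
  rcases u with _ | ⟨⟨a', b'⟩, u⟩
  · simp [consA, ev, io_zero, actB_zero]
  · simp [consA, ev, io_add, om_add, actA_add]

lemma ev_consB (j : ℕ) (b : V) (u : Wd) (y : Y) :
    ev j (consB j b u) y = actB j (io b) (ev j u y) := by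
  rcases u with _ | ⟨⟨a', b'⟩, u⟩
  · simp [consB, ev, io_zero, om_zero, actA_zero]
  · by_cases h : kil j a'
    · simp only [consB, h, if_true, ev, io_zero, om_zero, actA_zero, io_add]
      rw [actA_of_emod _ _ h, actB_add]
    · simp [consB, h, ev, io_zero, om_zero, actA_zero]

lemma ev_cons (i : ℕ) (w : Wd) (r : ℤ) (y : Y) :
    ev i w (.cons r y) = .cons (rot (mm i) (sh i w) r) (ev (i + 1) (sec i w r) y) := by
  induction w with
  | nil => simp [ev, sh, sec, rot_zero, io_zero, om_zero, actA_zero, actB_zero]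
  | cons x w ih =>
    obtain ⟨a, b⟩ := x
    simp only [ev, ih, sh, sec, actB]
    split_ifs with h0 h1
    · simp only [actA, rot_add, ev_consB]
    · simp only [actA, rot_add, ev_consA]
    · simp only [actA, rot_add]

lemma sec_ne_nil (i : ℕ) (w : Wd) (r : ℤ) : sec i w r ≠ [] := by
  induction w with
  | nil => simp [sec]
  | cons x w ih =>
    obtain ⟨a, b⟩ := x
    simp only [sec]
    rcases hs : sec i w r with _ | ⟨⟨a', b'⟩, u⟩
    · exact absurd hs ih
    · split_ifs
      · simp only [consB]; split_ifs <;> simp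
      · simp [consA]
      · simp

lemma sec_out (i : ℕ) (w : Wd) (r : ℤ) (h : ¬ (0 ≤ r ∧ r < mm i)) : sec i w r = [(0, 0)] := by
  have := two_le_mm i
  induction w with
  | nil => simp [sec]
  | cons x w ih =>
    obtain ⟨a, b⟩ := x
    simp only [sec, rot, h, if_false, ih]
    rw [if_neg (by omega), if_neg (by omega)]

def WB (f : V → ℝ) : Wd → ℝ
  | [] => 0
  | (_, b) :: w => f b + WB f w

def WA (f : V → ℝ) : Wd → ℝ
  | [] => 0
  | (a, _) :: w => f a + WA f w

lemma sum_sec (i : ℕ) (F : Wd → ℝ) (fA fB : V → ℝ)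
    (hA : ∀ b u, u ≠ [] → F (consA b u) ≤ F u + fA b)
    (hB : ∀ b u, u ≠ [] → F (consB (i + 1) b u) ≤ F u + fB b) (w : Wd) :
    ∑ r ∈ range (mm i), F (sec i w r) ≤ mm i * F [(0, 0)] + WB (fun b => fA b + fB b) w := by
  have h2 := two_le_mm i
  induction w with
  | nil => simp [sec, WB]
  | cons x w ih =>
    obtain ⟨a, b⟩ := x
    have key : ∀ r ∈ range (mm i), F (sec i ((a, b) :: w) r) ≤ F (sec i w r) +
        ((if rot (mm i) (sh i w) (r : ℤ) = 1 then fA b else 0) +
          (if rot (mm i) (sh i w) (r : ℤ) = 0 then fB b else 0)) := by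
      intro r _
      simp only [sec]
      by_cases h0 : rot (mm i) (sh i w) (r : ℤ) = 0
      · have := hB b _ (sec_ne_nil i w r)
        simp [h0, this]
      · by_cases h1 : rot (mm i) (sh i w) (r : ℤ) = 1
        · have := hA b _ (sec_ne_nil i w r)
          simp [h1, this]
        · simp [h0, h1]
    refine (sum_le_sum key).trans ?_
    rw [sum_add_distrib, sum_add_distrib, sum_rot _ _ _ (by omega) (by omega),
      sum_rot _ _ _ (by omega) (by omega)]
    simp only [WB]
    linarith

lemma sum_WB (i : ℕ) (f : V → ℝ) (hf : ∀ b c, f (b + c) ≤ f b + f c) (w : Wd) :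
    ∑ r ∈ range (mm i), WB f (sec i w r) ≤ WB f w + mm i * f 0 := by
  have := sum_sec i (WB f) (fun _ => 0) f ?_ ?_ w
  · simp only [WB, zero_add, add_zero] at this
    linarith
  · intro b u hu
    rcases u with _ | ⟨⟨a', b'⟩, u⟩
    · exact absurd rfl hu
    · simp [consA, WB]
  · intro b u hu
    rcases u with _ | ⟨⟨a', b'⟩, u⟩
    · exact absurd rfl hu
    · simp only [consB]
      split_ifs
      · simp only [WB]; linarith [hf b b']
      · simp only [WB]; linarith

def mass (b : V) : ℝ := b.1 + b.2.1 + b.2.2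

lemma mass_add (b c : V) : mass (b + c) = mass b + mass c := by
  simp only [mass, Prod.fst_add, Prod.snd_add]; push_cast; ring

lemma mass_zero : mass 0 = 0 := by simp [mass]

lemma mass_nonneg (b : V) : 0 ≤ mass b := by unfold mass; positivity

lemma WA_mass_nonneg (w : Wd) : 0 ≤ WA mass w := by
  induction w with
  | nil => simp [WA]
  | cons x w ih => obtain ⟨a, b⟩ := x; simp only [WA]; linarith [mass_nonneg a]

lemma WB_mass_nonneg (w : Wd) : 0 ≤ WB mass w := by
  induction w with
  | nil => simp [WB]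
  | cons x w ih => obtain ⟨a, b⟩ := x; simp only [WB]; linarith [mass_nonneg b]

lemma sum_WA (i : ℕ) (w : Wd) :
    ∑ r ∈ range (mm i), WA mass (sec i w r) ≤ WB mass w := by
  have := sum_sec i (WA mass) mass (fun _ => 0) ?_ ?_ w
  · simpa [WA, mass_zero] using this
  · intro b u hu
    rcases u with _ | ⟨⟨a', b'⟩, u⟩
    · exact absurd rfl hu
    · simp only [consA, WA, mass_add]; linarith
  · intro b u hu
    rcases u with _ | ⟨⟨a', b'⟩, u⟩
    · exact absurd rfl hu
    · simp only [consB]
      split_ifs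
      · simp only [WA, mass_zero]; linarith [mass_nonneg a']
      · simp only [WA, mass_zero]; linarith

def len (w : Wd) : ℝ := WB (fun _ => 1) w

def hd (j : ℕ) : Wd → ℝ
  | [] => 0
  | (a, _) :: _ => if kil j a then 0 else 1

lemma hd_nonneg (j : ℕ) (w : Wd) : 0 ≤ hd j w := by
  rcases w with _ | ⟨⟨a', b'⟩, u⟩
  · simp [hd]
  · simp only [hd]; split_ifs <;> norm_num

lemma sum_kil (i : ℕ) (w : Wd) :
    ∑ r ∈ range (mm i), len (sec i w r) ≤
      WB (fun b => if kil (i + 1) b then 0 else 1) w + mm i := by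
  have := sum_sec i (fun u => len u + hd (i + 1) u) (fun b => if kil (i + 1) b then 0 else 1)
    (fun _ => 0) ?_ ?_ w
  · have e : len [(0, 0)] + hd (i + 1) [(0, 0)] = 1 := by simp [len, WB, hd, kil_zero]
    simp only [e, add_zero, mul_one] at this
    have h2 : ∑ r ∈ range (mm i), len (sec i w r) ≤
        ∑ r ∈ range (mm i), (len (sec i w r) + hd (i + 1) (sec i w r)) :=
      sum_le_sum fun r _ => by linarith [hd_nonneg (i + 1) (sec i w r)]
    linarith
  · intro b u hu
    rcases u with _ | ⟨⟨a', b'⟩, u⟩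
    · exact absurd rfl hu
    · simp only [consA, len, WB, hd]
      by_cases hb : kil (i + 1) b
      · have : kil (i + 1) (b + a') ↔ kil (i + 1) a' := by
          unfold kil at hb ⊢
          rw [io_add, om_add, Int.add_emod, hb, zero_add, Int.emod_emod_of_dvd _ (dvd_refl _)]
        simp [hb, this]
      · simp only [hb, if_false]
        split_ifs <;> linarith
  · intro b u hu
    rcases u with _ | ⟨⟨a', b'⟩, u⟩
    · exact absurd rfl hu
    · simp only [consB]
      split_ifs with h
      · simp [len, WB, hd, h, kil_zero]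
      · simp only [len, WB, hd, h, kil_zero, if_true, if_false]; linarith

end Pool.Agent.H.MP_b57530_al
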